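import Pool.Agent.Lib.MP_008109_al.AB.Abelian

/-!
# MP_008109_al, Q1: the exact number of orbits for abelian groups with finitely many cubes
-/

set_option autoImplicit false

universe u v

open Pool.Agent.Lib.MP_008109_al Pool.Agent.Lib.MP_008109_al.AB

namespace Pool.Agent.Results.MP_008109_al.AbelianOrbitCount

/-- Let `X` be a countable abelian group with property (†) whose set `C` of cubes is finite. Then
the number of orbits of `Aut X` on special subsets is the number of orbits of `Aut X` on the inverse
closed subsets of `C` without `1`, and at most `2^|C|`. If `x³ = 1` for all `x`, there is exactly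
one orbit, and any two regular subgroups isomorphic to `X` of the automorphism group of a graph with
property (*) are conjugate. -/
theorem result :
    ∀ (X : Type u) [CommGroup X] [Countable X], HasDagger X →
      (Set.range fun x : X => x ^ 3).Finite →
      Cardinal.mk (SpecialOrbits X) = Cardinal.mk (TraceOrbits X) ∧
      Cardinal.mk (SpecialOrbits X) ≤
        ((2 ^ (Set.range fun x : X => x ^ 3).ncard : ℕ) : Cardinal) ∧
      ((∀ x : X, x ^ 3 = 1) → Cardinal.mk (SpecialOrbits X) = 1 ∧
        ∀ (V : Type v) (R : SimpleGraph V), HasStar R → ∀ H K : Subgroup (R ≃g R),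
          IsRegular H → IsRegular K → Nonempty (X ≃* H) → Nonempty (X ≃* K) →
          ∃ g : R ≃g R, H.map (MulAut.conj g).toMonoidHom = K) := by
  intro X _ _ hX h3
  have key : Cardinal.mk (SpecialOrbits X) = Cardinal.mk (TraceOrbits X) :=
    mk_specialOrbits_eq (exists_special_of_dagger hX) h3
      (fun S T hS hT h => orbit_three_mul h3 S T hS hT h)
  refine ⟨key, ?_, ?_⟩
  · rw [key]
    exact mk_traceOrbits_le h3
  · intro h1
    refine ⟨?_, ?_⟩
    · rw [key]
      exact mk_traceOrbits_eq_one h1
    · rintro V R hR H K hH hK ⟨φ⟩ ⟨ψ⟩
      refine regular_conj_of hR ?_ hH hK φ ψ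
      intro S T hS hT
      apply orbit_three_mul h3 S T hS hT
      intro x
      simp only [h1]
      exact ⟨fun h => absurd h hS.2.1, fun h => absurd h hT.2.1⟩

end Pool.Agent.Results.MP_008109_al.AbelianOrbitCount
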