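import Pool.Agent.Lib.MP_008109_al.PC.Main

/-!
# MP_008109_al, Q1: the number of orbits for every countable group with property (†)
-/

set_option autoImplicit false

universe u

open Pool.Agent.Lib.MP_008109_al Pool.Agent.Lib.MP_008109_al.AB Pool.Agent.Lib.MP_008109_al.PC

namespace Pool.Agent.Results.MP_008109_al.CompleteClassification

/-- Let `X` be a countable group with property (†). The number of orbits of `Aut X` on special
subsets is finite or exactly `2^ℵ₀`.  It is finite if and only if `X` has exponent two, or the
derived subgroup and the set of cubes are finite and there are `d`, `c` and a subgroup `M` of finite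
index with `|M'| ≤ 3 ^ d` such that `|F| ^ d ≤ c |X : C_X(F)|` for all finite subgroups `F`.
In the finite case the number is not zero and `|Aut X| = 2^ℵ₀`. -/
theorem result (X : Type u) [Group X] [Countable X] (hX : HasDagger X) :
    ((SpecialOrbits X).Finite ∨ Cardinal.mk (SpecialOrbits X) = 2 ^ Cardinal.aleph0) ∧
    ((SpecialOrbits X).Finite ↔
      (∀ x : X, x * x = 1) ∨
      ((commutator X : Set X).Finite ∧ {y : X | ∃ x : X, y = x * x * x}.Finite ∧
        ∃ (d c : ℕ) (M : Subgroup X), M.index ≠ 0 ∧ Nat.card (⁅M, M⁆ : Subgroup X) ≤ 3 ^ d ∧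
          ∀ F : Subgroup X, (F : Set X).Finite →
            Nat.card F ^ d ≤ c * (Subgroup.centralizer (F : Set X)).index)) ∧
    ((SpecialOrbits X).Finite →
      (SpecialOrbits X).Nonempty ∧ Cardinal.mk (X ≃* X) = 2 ^ Cardinal.aleph0) := by
  rw [Cardinal.two_power_aleph0]
  exact classification hX

end Pool.Agent.Results.MP_008109_al.CompleteClassification
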