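import Pool.Agent.Lib.MP_008109_al.Own

/-!
# MP_008109_al, Q1: negative answer; exactly one orbit for every countable group of exponent two
-/

set_option autoImplicit false

universe u v

open Pool.Agent.Lib.MP_008109_al

namespace Pool.Agent.Results.MP_008109_al.OneOrbit

/-- There is a countably infinite group of exponent two, and for every such group `X`: property (†)
holds, `|Aut X| = 2^ℵ₀`, special subsets exist, and `Aut X` is transitive on the special subsets
(exactly one orbit); any two regular subgroups isomorphic to `X` of the automorphism group of a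
graph with property (*) are conjugate. -/
theorem result :
    (∃ (X : Type) (_ : Group X), Countable X ∧ Infinite X ∧ ∀ x : X, x * x = 1) ∧
    ∀ (X : Type u) [Group X] [Countable X] [Infinite X], (∀ x : X, x * x = 1) →
      HasDagger X ∧ Cardinal.mk (X ≃* X) = 2 ^ Cardinal.aleph0 ∧
      (∃ S : Set X, IsSpecial S) ∧
      (∀ S T : Set X, IsSpecial S → IsSpecial T → ∃ α : X ≃* X, α '' S = T) ∧
      ∀ (V : Type v) (R : SimpleGraph V), HasStar R → ∀ H K : Subgroup (R ≃g R),
        IsRegular H → IsRegular K → Nonempty (X ≃* H) → Nonempty (X ≃* K) →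
        ∃ g : R ≃g R, H.map (MulAut.conj g).toMonoidHom = K := by
  refine ⟨⟨X0, inferInstance, inferInstance, inferInstance, exp_two⟩, ?_⟩
  intro X _ _ _ h2
  refine ⟨hasDagger h2, ?_, exists_special h2, one_orbit' h2, ?_⟩
  · rw [Cardinal.two_power_aleph0]
    exact card_aut h2
  · rintro V R hR H K hH hK ⟨φ⟩ ⟨ψ⟩
    exact regular_conj h2 hR hH hK φ ψ

end Pool.Agent.Results.MP_008109_al.OneOrbit
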